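import Mathlib

set_option autoImplicit false

universe u

namespace Pool.Agent.Results.MP_c8df5e_gt.ProductReflection

/-- The specialization order of a topological space: `x ≤ y` iff `x` lies in the closure of `{y}`. -/
def SpecLE {X : Type u} [TopologicalSpace X] (x y : X) : Prop :=
  x ∈ closure ({y} : Set X)

/-- `s` is a supremum (least upper bound) of `D` in the specialization order. -/
def IsSpecSup {X : Type u} [TopologicalSpace X] (D : Set X) (s : X) : Prop :=
  (∀ d ∈ D, SpecLE d s) ∧ ∀ t : X, (∀ d ∈ D, SpecLE d t) → SpecLE s t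

/-- A d-space (monotone convergence space): a T0 space in which every (nonempty) directed subset
`D` of the specialization order has a supremum, and this supremum lies in an open set `U` only if
`D` meets `U`. -/
structure IsDSpace (X : Type u) [TopologicalSpace X] : Prop where
  t0 : T0Space X
  exists_sup : ∀ D : Set X, D.Nonempty → DirectedOn SpecLE D →
    ∃ s : X, IsSpecSup D s ∧ ∀ U : Set X, IsOpen U → s ∈ U → (D ∩ U).Nonempty

/-- `(R, μ)` is a d-reflection of `X`: `R` is a d-space, `μ : X → R` is continuous, and every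
continuous map from `X` to a d-space `Y` factors uniquely through `μ` by a continuous map. -/
structure IsDReflection {X : Type u} [TopologicalSpace X] {R : Type u} [TopologicalSpace R]
    (μ : X → R) : Prop where
  dspace : IsDSpace R
  continuous : Continuous μ
  universal : ∀ (Y : Type u) [TopologicalSpace Y], IsDSpace Y → ∀ f : X → Y, Continuous f →
    ∃! g : R → Y, Continuous g ∧ g ∘ μ = f

section basics

variable {X : Type u} [TopologicalSpace X]

theorem specLE_iff {x y : X} : SpecLE x y ↔ ∀ U : Set X, IsOpen U → x ∈ U → y ∈ U := by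
  unfold SpecLE
  rw [mem_closure_iff]
  constructor
  · intro h U hU hx
    obtain ⟨z, hz1, hz2⟩ := h U hU hx
    rw [Set.mem_singleton_iff] at hz2
    exact hz2 ▸ hz1
  · intro h U hU hx
    exact ⟨y, h U hU hx, rfl⟩

theorem specLE_refl (x : X) : SpecLE x x := specLE_iff.2 fun _ _ h => h

theorem SpecLE.trans {x y z : X} (h₁ : SpecLE x y) (h₂ : SpecLE y z) : SpecLE x z :=
  specLE_iff.2 fun U hU hx => specLE_iff.1 h₂ U hU (specLE_iff.1 h₁ U hU hx)

theorem SpecLE.antisymm [T0Space X] {x y : X} (h₁ : SpecLE x y) (h₂ : SpecLE y x) : x = y := by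
  apply (inseparable_iff_forall_isOpen.2 ?_).eq
  intro U hU
  exact ⟨specLE_iff.1 h₁ U hU, specLE_iff.1 h₂ U hU⟩

theorem SpecLE.map {Y : Type u} [TopologicalSpace Y] {f : X → Y} (hf : Continuous f) {x y : X}
    (h : SpecLE x y) : SpecLE (f x) (f y) :=
  specLE_iff.2 fun U hU hx => specLE_iff.1 h (f ⁻¹' U) (hU.preimage hf) hx

theorem IsSpecSup.unique [T0Space X] {D : Set X} {s t : X} (hs : IsSpecSup D s)
    (ht : IsSpecSup D t) : s = t :=
  SpecLE.antisymm (hs.2 t ht.1) (ht.2 s hs.1)

/-- In a d-space the supremum of a nonempty directed set is a limit of it. -/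
theorem IsDSpace.mem_of_sup (hX : IsDSpace X) {D : Set X} (hD : D.Nonempty)
    (hdir : DirectedOn SpecLE D) {s : X} (hs : IsSpecSup D s) {U : Set X} (hU : IsOpen U)
    (hsU : s ∈ U) : (D ∩ U).Nonempty := by
  have := hX.t0
  obtain ⟨t, ht, htU⟩ := hX.exists_sup D hD hdir
  rw [hs.unique ht] at hsU
  exact htU U hU hsU

/-- If `s` is an upper bound of `D` and `D` converges to `s`, then `s` is the supremum. -/
theorem isSpecSup_of_limit {D : Set X} {s : X} (h1 : ∀ d ∈ D, SpecLE d s)
    (h2 : ∀ U : Set X, IsOpen U → s ∈ U → (D ∩ U).Nonempty) : IsSpecSup D s := by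
  refine ⟨h1, fun t ht => specLE_iff.2 fun U hU hs => ?_⟩
  obtain ⟨d, hd, hdU⟩ := h2 U hU hs
  exact specLE_iff.1 (ht d hd) U hU hdU

theorem DirectedOn.image_map {Y : Type u} [TopologicalSpace Y] {f : X → Y} (hf : Continuous f)
    {D : Set X} (hdir : DirectedOn SpecLE D) : DirectedOn SpecLE (f '' D) := by
  rintro _ ⟨a, ha, rfl⟩ _ ⟨b, hb, rfl⟩
  obtain ⟨c, hc, hac, hbc⟩ := hdir a ha b hb
  exact ⟨f c, ⟨c, hc, rfl⟩, hac.map hf, hbc.map hf⟩

/-- Continuous maps out of a d-space preserve suprema of directed sets. -/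
theorem IsDSpace.map_sup (hX : IsDSpace X) {Y : Type u} [TopologicalSpace Y] {f : X → Y}
    (hf : Continuous f) {D : Set X} (hD : D.Nonempty) (hdir : DirectedOn SpecLE D) {s : X}
    (hs : IsSpecSup D s) : IsSpecSup (f '' D) (f s) := by
  apply isSpecSup_of_limit
  · rintro _ ⟨d, hd, rfl⟩
    exact (hs.1 d hd).map hf
  · intro U hU hsU
    obtain ⟨d, hd, hdU⟩ := hX.mem_of_sup hD hdir hs (hU.preimage hf) hsU
    exact ⟨f d, ⟨d, hd, rfl⟩, hdU⟩

end basics

/-- A subset is d-closed if it is closed under suprema of nonempty directed subsets. -/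
def DClosed {R : Type u} [TopologicalSpace R] (C : Set R) : Prop :=
  ∀ D : Set R, D ⊆ C → D.Nonempty → DirectedOn SpecLE D → ∀ s : R, IsSpecSup D s → s ∈ C

/-- `A` is d-dense if the only d-closed set containing `A` is the whole space. -/
def DDense {R : Type u} [TopologicalSpace R] (A : Set R) : Prop :=
  ∀ C : Set R, DClosed C → A ⊆ C → ∀ x : R, x ∈ C

section criterion

variable {X : Type u} [TopologicalSpace X] {R : Type u} [TopologicalSpace R]

omit [TopologicalSpace X] in
/-- If `μ` is d-dense, open sets with comparable preimages under `μ` are comparable. -/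
theorem subset_of_preimage (hR : IsDSpace R) {μ : X → R} (hden : DDense (Set.range μ))
    {V W : Set R} (hV : IsOpen V) (hW : IsOpen W) (h : μ ⁻¹' V ⊆ μ ⁻¹' W) : V ⊆ W := by
  have key : ∀ x : R, x ∈ {x : R | x ∈ V → x ∈ W} := by
    apply hden
    · intro D hD hne hdir s hs hsV
      obtain ⟨d, hd, hdV⟩ := hR.mem_of_sup hne hdir hs hV hsV
      exact specLE_iff.1 (hs.1 d hd) W hW (hD hd hdV)
    · rintro _ ⟨x, rfl⟩ hx
      exact h hx
  intro x hx
  exact key x hx

/-- The criterion: an inducing d-dense map into a d-space is a d-reflection. -/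
theorem isDReflection_of_dDense (hR : IsDSpace R) {μ : X → R} (hind : Topology.IsInducing μ)
    (hden : DDense (Set.range μ)) : IsDReflection μ := by
  refine ⟨hR, hind.continuous, ?_⟩
  intro Y _ hY f hf
  have := hY.t0
  -- for every open `U` of `Y` choose the open `V` of `R` with the same preimage
  have hex : ∀ U : Set Y, IsOpen U → ∃ V : Set R, IsOpen V ∧ μ ⁻¹' V = f ⁻¹' U := by
    intro U hU
    exact (hind.isOpen_iff).1 (hU.preimage hf)
  choose! V hVo hVp using hex
  have hmono : ∀ U U' : Set Y, IsOpen U → IsOpen U' → U ⊆ U' → V U ⊆ V U' := by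
    intro U U' hU hU' hsub
    apply subset_of_preimage hR hden (hVo U hU) (hVo U' hU')
    rw [hVp U hU, hVp U' hU']
    exact Set.preimage_mono hsub
  -- every point of `R` has an image
  have hpt : ∀ r : R, r ∈ {r : R | ∃ y : Y, ∀ U : Set Y, IsOpen U → (y ∈ U ↔ r ∈ V U)} := by
    apply hden
    · intro D hD hne hdir s hs
      have : Nonempty Y := by
        obtain ⟨d, hd⟩ := hne
        obtain ⟨y, -⟩ := hD hd
        exact ⟨y⟩
      have hD' : ∀ d ∈ D, ∃ y : Y, ∀ U : Set Y, IsOpen U → (y ∈ U ↔ d ∈ V U) :=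
        fun d hd => hD hd
      choose! y hy using hD'
      have hydir : DirectedOn SpecLE (y '' D) := by
        rintro _ ⟨a, ha, rfl⟩ _ ⟨b, hb, rfl⟩
        obtain ⟨c, hc, hac, hbc⟩ := hdir a ha b hb
        refine ⟨y c, ⟨c, hc, rfl⟩, specLE_iff.2 ?_, specLE_iff.2 ?_⟩
        · intro U hU ha'
          exact (hy c hc U hU).2 (specLE_iff.1 hac _ (hVo U hU) ((hy a ha U hU).1 ha'))
        · intro U hU hb'
          exact (hy c hc U hU).2 (specLE_iff.1 hbc _ (hVo U hU) ((hy b hb U hU).1 hb'))
      obtain ⟨t, ht, htU⟩ := hY.exists_sup (y '' D) (hne.image y) hydir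
      refine ⟨t, fun U hU => ⟨fun htm => ?_, fun hsm => ?_⟩⟩
      · obtain ⟨_, ⟨d, hd, rfl⟩, hdU⟩ := htU U hU htm
        exact specLE_iff.1 (hs.1 d hd) _ (hVo U hU) ((hy d hd U hU).1 hdU)
      · obtain ⟨d, hd, hdV⟩ := hR.mem_of_sup hne hdir hs (hVo U hU) hsm
        exact specLE_iff.1 (ht.1 _ ⟨d, hd, rfl⟩) U hU ((hy d hd U hU).2 hdV)
    · rintro _ ⟨x, rfl⟩
      refine ⟨f x, fun U hU => ?_⟩
      have : x ∈ μ ⁻¹' (V U) ↔ x ∈ f ⁻¹' U := by rw [hVp U hU]
      exact this.symm
  choose g hg using hpt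
  have hgpre : ∀ U : Set Y, IsOpen U → g ⁻¹' U = V U := by
    intro U hU
    ext r
    exact hg r U hU
  have hgc : Continuous g := by
    rw [continuous_def]
    intro U hU
    rw [hgpre U hU]
    exact hVo U hU
  have hgf : g ∘ μ = f := by
    funext x
    apply (inseparable_iff_forall_isOpen.2 ?_).eq
    intro U hU
    have h1 : (g ∘ μ) x ∈ U ↔ μ x ∈ V U := hg (μ x) U hU
    have h2 : x ∈ μ ⁻¹' (V U) ↔ x ∈ f ⁻¹' U := by rw [hVp U hU]
    exact h1.trans h2
  refine ⟨g, ⟨hgc, hgf⟩, ?_⟩
  rintro g' ⟨hg'c, hg'f⟩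
  have heq : ∀ r : R, r ∈ {r : R | g' r = g r} := by
    apply hden
    · intro D hD hne hdir s hs
      have h1 := hR.map_sup hg'c hne hdir hs
      have h2 := hR.map_sup hgc hne hdir hs
      have h3 : g' '' D = g '' D := Set.image_congr fun d hd => hD hd
      rw [h3] at h1
      exact h1.unique h2
    · rintro _ ⟨x, rfl⟩
      have h1 : (g' ∘ μ) x = (g ∘ μ) x := by rw [hg'f, hgf]
      exact h1
  funext r
  exact heq r

/-- An open set of the Sierpinski space containing a false point is everything. -/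
theorem sierpinski_open_of_false {U : Set (ULift.{u} Prop)} (hU : IsOpen U)
    {p : ULift.{u} Prop} (hp : ¬ p.down) (hpU : p ∈ U) (q : ULift.{u} Prop) : q ∈ U := by
  obtain ⟨U', hU', rfl⟩ := isOpen_induced_iff.1 hU
  have hpf : p.down = False := by simpa using hp
  have h1 : False ∈ U' := by
    have : p.down ∈ U' := hpU
    rwa [hpf] at this
  have h2 : U' ∈ nhds False := hU'.mem_nhds h1
  rw [nhds_false, Filter.mem_top] at h2
  rw [h2]
  trivial

/-- The true points form an open set of the Sierpinski space. -/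
theorem sierpinski_isOpen_true : IsOpen {p : ULift.{u} Prop | p.down} := by
  have h : IsOpen {p : Prop | p} := by
    have h1 : {p : Prop | p} = {True} := by
      ext p; simp
    rw [h1]
    exact isOpen_singleton_true
  exact h.preimage continuous_uliftDown

/-- The Sierpinski space, lifted to `Type u`, is a d-space. -/
theorem isDSpace_sierpinski : IsDSpace (ULift.{u} Prop) := by
  have ht0 : T0Space (ULift.{u} Prop) := Homeomorph.ulift.isEmbedding.t0Space
  refine ⟨ht0, ?_⟩
  intro D hne hdir
  refine ⟨⟨∃ d ∈ D, d.down⟩, ?_⟩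
  have hlim : ∀ U : Set (ULift.{u} Prop), IsOpen U → (⟨∃ d ∈ D, d.down⟩ : ULift.{u} Prop) ∈ U →
      (D ∩ U).Nonempty := by
    intro U hU hsU
    by_cases h : ∃ d ∈ D, d.down
    · obtain ⟨d, hd, hdd⟩ := h
      have hs : (⟨∃ d ∈ D, d.down⟩ : ULift.{u} Prop) = d := by
        apply ULift.ext
        simp only [hdd, eq_iff_iff, iff_true]
        exact ⟨d, hd, hdd⟩
      rw [hs] at hsU
      exact ⟨d, hd, hsU⟩
    · obtain ⟨d, hd⟩ := hne
      exact ⟨d, hd, sierpinski_open_of_false hU h hsU d⟩
  refine ⟨isSpecSup_of_limit ?_ hlim, hlim⟩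
  intro d hd
  rw [specLE_iff]
  intro U hU hdU
  by_cases hdd : d.down
  · have hs : (⟨∃ d ∈ D, d.down⟩ : ULift.{u} Prop) = d := by
      apply ULift.ext
      simp only [hdd, eq_iff_iff, iff_true]
      exact ⟨d, hd, hdd⟩
    rw [hs]
    exact hdU
  · exact sierpinski_open_of_false hU hdd hdU _

/-- The unit of a d-reflection induces the topology. -/
theorem IsDReflection.isInducing {μ : X → R} (h : IsDReflection μ) : Topology.IsInducing μ := by
  rw [Topology.isInducing_iff]
  apply le_antisymm
  · exact h.continuous.le_induced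
  · intro U hU
    rw [isOpen_induced_iff]
    obtain ⟨g, ⟨hgc, hgμ⟩, -⟩ := h.universal (ULift.{u} Prop) isDSpace_sierpinski
      (fun x => ⟨x ∈ U⟩) (continuous_uliftUp.comp (continuous_Prop.2 hU))
    refine ⟨g ⁻¹' {p | p.down}, sierpinski_isOpen_true.preimage hgc, ?_⟩
    ext x
    have : (g ∘ μ) x = ⟨x ∈ U⟩ := by rw [hgμ]
    show (g (μ x)).down ↔ x ∈ U
    have h2 : g (μ x) = ⟨x ∈ U⟩ := this
    rw [h2]

/-- A d-closed subset of a d-space is a d-space. -/
theorem IsDSpace.subtype (hR : IsDSpace R) {C : Set R} (hC : DClosed C) : IsDSpace ↥C := by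
  have := hR.t0
  refine ⟨inferInstance, ?_⟩
  intro D hne hdir
  obtain ⟨s, hs, hsU⟩ := hR.exists_sup (Subtype.val '' D) (hne.image _)
    (DirectedOn.image_map continuous_subtype_val hdir)
  have hsC : s ∈ C := by
    refine hC (Subtype.val '' D) ?_ (hne.image _)
      (DirectedOn.image_map continuous_subtype_val hdir) s hs
    rintro _ ⟨d, -, rfl⟩
    exact d.2
  have hlim : ∀ U : Set ↥C, IsOpen U → (⟨s, hsC⟩ : ↥C) ∈ U → (D ∩ U).Nonempty := by
    intro U hU hsm
    obtain ⟨V, hV, rfl⟩ := isOpen_induced_iff.1 hU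
    obtain ⟨_, ⟨d, hd, rfl⟩, hdV⟩ := hsU V hV hsm
    exact ⟨d, hd, hdV⟩
  refine ⟨⟨s, hsC⟩, isSpecSup_of_limit ?_ hlim, hlim⟩
  intro d hd
  rw [specLE_iff]
  intro U hU hdU
  obtain ⟨V, hV, rfl⟩ := isOpen_induced_iff.1 hU
  exact specLE_iff.1 (hs.1 d ⟨d, hd, rfl⟩) V hV hdU

/-- The unit of a d-reflection is d-dense. -/
theorem IsDReflection.dDense {μ : X → R} (h : IsDReflection μ) : DDense (Set.range μ) := by
  intro C hC hsub x
  have hCd : IsDSpace ↥C := h.dspace.subtype hC
  obtain ⟨g, ⟨hgc, hgμ⟩, -⟩ := h.universal ↥C hCd (fun x => ⟨μ x, hsub ⟨x, rfl⟩⟩)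
    (h.continuous.subtype_mk _)
  obtain ⟨k, -, hk⟩ := h.universal R h.dspace μ h.continuous
  have h1 : (Subtype.val ∘ g) = k := by
    apply hk
    refine ⟨continuous_subtype_val.comp hgc, ?_⟩
    funext y
    have : (g ∘ μ) y = ⟨μ y, hsub ⟨y, rfl⟩⟩ := by rw [hgμ]
    have h2 : g (μ y) = ⟨μ y, hsub ⟨y, rfl⟩⟩ := this
    show (g (μ y)).1 = μ y
    rw [h2]
  have h2 : (id : R → R) = k := hk id ⟨continuous_id, rfl⟩
  have h3 : (g x).1 = x := by
    have : (Subtype.val ∘ g) x = (id : R → R) x := by rw [h1, h2]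
    exact this
  rw [← h3]
  exact (g x).2

end criterion

section products

variable {I : Type u} {R : I → Type u} [∀ i, TopologicalSpace (R i)]

/-- The specialization order of a product is the product order. -/
theorem specLE_pi {x y : ∀ i, R i} : SpecLE x y ↔ ∀ i, SpecLE (x i) (y i) := by
  constructor
  · intro h i
    exact h.map (continuous_apply i)
  · intro h
    unfold SpecLE at *
    have h1 : ({y} : Set (∀ i, R i)) = Set.univ.pi fun i => {y i} := by
      ext z
      simp [funext_iff]
    rw [h1, closure_pi_set]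
    intro i _
    exact h i

/-- A product of d-spaces is a d-space. -/
theorem isDSpace_pi (hR : ∀ i, IsDSpace (R i)) : IsDSpace (∀ i, R i) := by
  classical
  have := fun i => (hR i).t0
  refine ⟨inferInstance, ?_⟩
  intro D hne hdir
  have hex : ∀ i, ∃ s : R i, IsSpecSup ((fun x : ∀ i, R i => x i) '' D) s ∧ ∀ U : Set (R i),
      IsOpen U → s ∈ U → (((fun x : ∀ i, R i => x i) '' D) ∩ U).Nonempty := fun i =>
    (hR i).exists_sup _ (hne.image _) (DirectedOn.image_map (continuous_apply i) hdir)
  choose s hs hsU using hex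
  have hub : ∀ d ∈ D, SpecLE d s := by
    intro d hd
    rw [specLE_pi]
    intro i
    exact (hs i).1 _ ⟨d, hd, rfl⟩
  have hlim : ∀ U : Set (∀ i, R i), IsOpen U → s ∈ U → (D ∩ U).Nonempty := by
    intro U hU hsm
    obtain ⟨F, u, hu, hsub⟩ := isOpen_pi_iff.1 hU s hsm
    -- a member of `D` in the box determined by `F`
    have key : ∀ G : Finset I, G ⊆ F → ∃ d ∈ D, ∀ i ∈ G, d i ∈ u i := by
      intro G
      induction G using Finset.induction_on with
      | empty =>
        intro _
        obtain ⟨d, hd⟩ := hne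
        exact ⟨d, hd, by simp⟩
      | insert a G ha ih =>
        intro hsubG
        obtain ⟨d, hd, hdG⟩ := ih fun i hi => hsubG (Finset.mem_insert_of_mem hi)
        have haF : a ∈ F := hsubG (Finset.mem_insert_self a G)
        obtain ⟨_, ⟨e, he, rfl⟩, heu⟩ := hsU a (u a) (hu a haF).1 (hu a haF).2
        obtain ⟨c, hc, hdc, hec⟩ := hdir d hd e he
        refine ⟨c, hc, fun i hi => ?_⟩
        rcases Finset.mem_insert.1 hi with rfl | hi'
        · exact specLE_iff.1 (specLE_pi.1 hec i) (u i) (hu i haF).1 heu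
        · exact specLE_iff.1 (specLE_pi.1 hdc i) (u i)
            (hu i (hsubG (Finset.mem_insert_of_mem hi'))).1 (hdG i hi')
    obtain ⟨d, hd, hdF⟩ := key F (Finset.Subset.refl F)
    exact ⟨d, hd, hsub fun i hi => hdF i hi⟩
  exact ⟨s, isSpecSup_of_limit hub hlim, hlim⟩

/-- The key step: a product of d-dense maps is d-dense. -/
theorem dDense_pi {X : I → Type u} (hR : ∀ i, IsDSpace (R i)) (μ : ∀ i, X i → R i)
    (hden : ∀ i, DDense (Set.range (μ i))) :
    DDense (Set.range fun (x : ∀ i, X i) (i : I) => μ i (x i)) := by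
  classical
  intro C hC hsub r
  -- below every point of `R i` there is a point of the range of `μ i`
  have hbelow : ∀ i, ∀ r : R i, r ∈ {r : R i | ∃ x : X i, SpecLE (μ i x) r} := by
    intro i
    apply hden i
    · intro D hD hne hdir s hs
      obtain ⟨d, hd⟩ := hne
      obtain ⟨x, hx⟩ := hD hd
      exact ⟨x, hx.trans (hs.1 d hd)⟩
    · rintro _ ⟨x, rfl⟩
      exact ⟨x, specLE_refl _⟩
  choose x hx using fun i => hbelow i (r i)
  -- the points that agree with `r` on a finite set and with points of the ranges elsewhere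
  have hfin : ∀ F : Finset I, ∀ z : ∀ i, R i, (∀ i, i ∉ F → z i ∈ Set.range (μ i)) → z ∈ C := by
    intro F
    induction F using Finset.induction_on with
    | empty =>
      intro z hz
      choose y hy using fun i => hz i (by simp)
      apply hsub
      exact ⟨y, funext hy⟩
    | insert a F ha ih =>
      intro z hz
      have key : ∀ t : R a, t ∈ {t : R a | Function.update z a t ∈ C} := by
        apply hden a
        · intro D hD hne hdir s hs
          have hcont : Continuous (fun t : R a => Function.update z a t) :=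
            continuous_const.update a continuous_id
          refine hC ((fun t : R a => Function.update z a t) '' D) ?_ (hne.image _)
            (DirectedOn.image_map hcont hdir) _ ((hR a).map_sup hcont hne hdir hs)
          rintro _ ⟨t, ht, rfl⟩
          exact hD ht
        · rintro _ ⟨y, rfl⟩
          apply ih
          intro i hi
          by_cases hia : i = a
          · subst hia
            rw [Function.update_self]
            exact ⟨y, rfl⟩
          · rw [Function.update_of_ne hia]
            apply hz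
            simp [hia, hi]
      have h1 := key (z a)
      simpa using h1
  -- the directed family of approximations of `r`
  let p : Finset I → ∀ i, R i := fun F i => if i ∈ F then r i else μ i (x i)
  have hp_mono : ∀ F G : Finset I, F ⊆ G → SpecLE (p F) (p G) := by
    intro F G hFG
    rw [specLE_pi]
    intro i
    by_cases hF : i ∈ F
    · simp only [p, hF, hFG hF, if_true]
      exact specLE_refl _
    · by_cases hG : i ∈ G
      · simp only [p, hF, hG, if_true, if_false]
        exact hx i
      · simp only [p, hF, hG, if_false]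
        exact specLE_refl _
  have hp_mem : ∀ F : Finset I, p F ∈ C := by
    intro F
    apply hfin F
    intro i hi
    exact ⟨x i, by simp [p, hi]⟩
  have hdir : DirectedOn SpecLE (Set.range p) := by
    rintro _ ⟨F, rfl⟩ _ ⟨G, rfl⟩
    exact ⟨p (F ∪ G), ⟨F ∪ G, rfl⟩, hp_mono _ _ Finset.subset_union_left,
      hp_mono _ _ Finset.subset_union_right⟩
  refine hC (Set.range p) ?_ ⟨p ∅, ∅, rfl⟩ hdir r ⟨?_, ?_⟩
  · rintro _ ⟨F, rfl⟩
    exact hp_mem F
  · rintro _ ⟨F, rfl⟩
    rw [specLE_pi]
    intro i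
    by_cases hF : i ∈ F
    · simp only [p, hF, if_true]
      exact specLE_refl _
    · simp only [p, hF, if_false]
      exact hx i
  · intro t ht
    rw [specLE_pi]
    intro i
    have h1 := specLE_pi.1 (ht (p {i}) ⟨{i}, rfl⟩) i
    simpa [p] using h1

end products

/-- **Main theorem.** The d-reflection functor preserves arbitrary products: if `μ i : X i → R i`
is a d-reflection of the T0 space `X i` for every `i : I`, then the product map
`∏ X i → ∏ R i` is a d-reflection of `∏ X i`; hence for every d-reflection `ν : ∏ X i → Z`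
of the product there is a homeomorphism `Z ≃ₜ ∏ R i` compatible with the units. -/
theorem result :
    ∀ (I : Type u) (X R : I → Type u) [∀ i, TopologicalSpace (X i)] [∀ i, T0Space (X i)]
      [∀ i, TopologicalSpace (R i)] (μ : ∀ i, X i → R i), (∀ i, IsDReflection (μ i)) →
      IsDReflection (fun (x : ∀ i, X i) (i : I) => μ i (x i)) ∧
      ∀ (Z : Type u) [TopologicalSpace Z] (ν : (∀ i, X i) → Z), IsDReflection ν →
        ∃ h : Z ≃ₜ (∀ i, R i), ∀ (x : ∀ i, X i) (i : I), h (ν x) i = μ i (x i) := by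
  intro I X R _ _ _ μ hμ
  have hmain : IsDReflection (fun (x : ∀ i, X i) (i : I) => μ i (x i)) := by
    apply isDReflection_of_dDense (isDSpace_pi fun i => (hμ i).dspace)
    · exact Topology.IsInducing.piMap fun i => (hμ i).isInducing
    · exact dDense_pi (fun i => (hμ i).dspace) μ fun i => (hμ i).dDense
  refine ⟨hmain, ?_⟩
  intro Z _ ν hν
  obtain ⟨f, ⟨hfc, hfν⟩, -⟩ := hν.universal _ hmain.dspace _ hmain.continuous
  obtain ⟨g, ⟨hgc, hgμ⟩, -⟩ := hmain.universal Z hν.dspace ν hν.continuous
  obtain ⟨k, -, hk⟩ := hν.universal Z hν.dspace ν hν.continuous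
  obtain ⟨l, -, hl⟩ := hmain.universal _ hmain.dspace _ hmain.continuous
  have hgf : g ∘ f = id := by
    rw [hk (g ∘ f) ⟨hgc.comp hfc, by rw [Function.comp_assoc, hfν, hgμ]⟩,
      hk id ⟨continuous_id, rfl⟩]
  have hfg : f ∘ g = id := by
    rw [hl (f ∘ g) ⟨hfc.comp hgc, by rw [Function.comp_assoc, hgμ, hfν]⟩,
      hl id ⟨continuous_id, rfl⟩]
  refine ⟨⟨⟨f, g, fun z => congrFun hgf z, fun z => congrFun hfg z⟩, hfc, hgc⟩, ?_⟩
  intro x i
  have h1 : (f ∘ ν) x = fun i => μ i (x i) := by rw [hfν]
  exact congrFun h1 i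

end Pool.Agent.Results.MP_c8df5e_gt.ProductReflection
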